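import Pool.Agent.P8H15.FG.Stm2

/-!
Project FG (helper15), package FAM, by helper86 (the lemma on subfamilies after
`Pool.Agent.P8H4.GQ.sub` of helper4).
-/

set_option autoImplicit false

namespace Pool.Agent.P8H86.FG

open Finset Filter
open Pool.Agent.P8H15.FG

/-- the additive energy of subfamilies -/
lemma sub (p x : ℕ) (s : ℕ → ℤ) (T : Finset ℕ) (hT : T ⊆ Icc 1 x) :
    ∃ f : ℕ → ℕ, (∀ a ∈ Icc 1 T.card, f a ∈ T) ∧ T = (Icc 1 T.card).image f ∧
      ∀ i : ℤ, i ≠ 0 → energy p T.card (fun a => i * s (f a)) ≤ energy p x s := by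
  classical
  obtain ⟨f, hf⟩ : ∃ f : ℕ → ℕ, f = fun a =>
      if h : a - 1 < T.card then T.orderEmbOfFin rfl ⟨a - 1, h⟩ else 0 := ⟨_, rfl⟩
  have hfe : ∀ (a : ℕ) (h : a - 1 < T.card), f a = T.orderEmbOfFin rfl ⟨a - 1, h⟩ := by
    intro a h
    rw [hf]
    exact dif_pos h
  have hmem : ∀ a ∈ Icc 1 T.card, f a ∈ T := by
    intro a ha
    rw [mem_Icc] at ha
    rw [hfe a (by omega)]
    exact T.orderEmbOfFin_mem rfl _
  have hinj : ∀ a ∈ Icc 1 T.card, ∀ b ∈ Icc 1 T.card, f a = f b → a = b := by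
    intro a ha b hb h
    rw [mem_Icc] at ha hb
    rw [hfe a (by omega), hfe b (by omega)] at h
    have h1 := (T.orderEmbOfFin rfl).injective h
    have h2 : a - 1 = b - 1 := congrArg Fin.val h1
    omega
  have himg : T = (Icc 1 T.card).image f := by
    symm
    refine Finset.eq_of_subset_of_card_le ?_ ?_
    · intro y hy
      obtain ⟨a, ha, rfl⟩ := mem_image.1 hy
      exact hmem a ha
    · rw [card_image_of_injOn (fun a ha b hb h => hinj a ha b hb h), Nat.card_Icc]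
      omega
  refine ⟨f, hmem, himg, fun i hi => ?_⟩
  unfold energy
  have key : ∀ q : (Fin p → ℕ) × (Fin p → ℕ),
      (∑ j, (i * s (f (q.1 j))) = ∑ j, (i * s (f (q.2 j)))) →
      ∑ j, s (f (q.1 j)) = ∑ j, s (f (q.2 j)) := by
    intro q h
    rw [← mul_sum, ← mul_sum] at h
    exact mul_left_cancel₀ hi h
  refine Finset.card_le_card_of_injOn (fun q => (fun j => f (q.1 j), fun j => f (q.2 j))) ?_ ?_
  · intro q hq
    rw [mem_coe, mem_filter, mem_product, Fintype.mem_piFinset, Fintype.mem_piFinset] at hq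
    rw [mem_coe, mem_filter, mem_product, Fintype.mem_piFinset, Fintype.mem_piFinset]
    exact ⟨⟨fun j => hT (hmem _ (hq.1.1 j)), fun j => hT (hmem _ (hq.1.2 j))⟩, key q hq.2⟩
  · intro q hq q' hq' h
    rw [mem_coe, mem_filter, mem_product, Fintype.mem_piFinset, Fintype.mem_piFinset] at hq hq'
    have h1 := congrArg Prod.fst h
    have h2 := congrArg Prod.snd h
    refine Prod.ext ?_ ?_
    · funext j
      exact hinj _ (hq.1.1 j) _ (hq'.1.1 j) (congrFun h1 j)
    · funext j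
      exact hinj _ (hq.1.2 j) _ (hq'.1.2 j) (congrFun h2 j)

/-- powers of the logarithm are less than the saving -/
lemma log_le (A : ℕ) {c : ℝ} (hc : 0 < c) : ∃ N₁ : ℕ, ∀ N : ℕ, N₁ ≤ N →
    1 ≤ saving c N ∧ 0 ≤ Real.log N ∧ Real.log N ^ A ≤ saving c N := by
  have t1 : Tendsto (fun N : ℕ => Real.log (N : ℝ)) atTop atTop :=
    Real.tendsto_log_atTop.comp tendsto_natCast_atTop_atTop
  have t2 : Tendsto (fun N : ℕ => Real.log (Real.log (N : ℝ))) atTop atTop :=
    Real.tendsto_log_atTop.comp t1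
  have e1 : ∀ᶠ x : ℝ in atTop, ‖Real.log x ^ 2‖ ≤ (c / (A + 1)) * ‖id x‖ :=
    (Real.isLittleO_pow_log_id_atTop (n := 2)).def (by positivity)
  have e2 := t1.eventually e1
  obtain ⟨N₁, hN₁⟩ := eventually_atTop.1 ((e2.and (t1.eventually_gt_atTop 0)).and
    ((t2.eventually_gt_atTop 0).and (eventually_ge_atTop 1)))
  refine ⟨N₁, fun N hN => ?_⟩
  obtain ⟨⟨h1, h2⟩, h3, h4⟩ := hN₁ N hN
  have hN0 : (1 : ℝ) ≤ N := by exact_mod_cast h4
  have hN1 : (0 : ℝ) < N := by linarith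
  refine ⟨Real.one_le_rpow hN0 (by positivity), h2.le, ?_⟩
  have h5 : Real.log (Real.log N) ^ 2 * (A + 1) ≤ c * Real.log N := by
    simp only [id, Real.norm_eq_abs] at h1
    rw [abs_of_nonneg (by positivity), abs_of_pos h2, div_mul_eq_mul_div,
      le_div_iff₀ (by positivity)] at h1
    exact h1
  have h6 : Real.log (Real.log N) * A ≤ Real.log N * (c / Real.log (Real.log N)) := by
    rw [mul_div_assoc', le_div_iff₀ h3]
    nlinarith [sq_nonneg (Real.log (Real.log N))]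
  unfold saving
  rw [Real.rpow_def_of_pos hN1]
  calc Real.log N ^ A = Real.exp (Real.log (Real.log N)) ^ A := by rw [Real.exp_log h2]
    _ = Real.exp (Real.log (Real.log N) * A) := by rw [← Real.exp_nat_mul, mul_comm]
    _ ≤ _ := Real.exp_le_exp.2 h6

lemma saving_pow {c₁ : ℝ} (N m : ℕ) (hm : 0 < m) : saving (c₁ / m) N ^ m = saving c₁ N := by
  unfold saving
  rw [← Real.rpow_mul_natCast (by positivity)]
  congr 1
  have : (m : ℝ) ≠ 0 := by positivity
  by_cases h : Real.log (Real.log N) = 0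
  · simp [h]
  · field_simp

open Classical in
theorem fam : S_TUP → S_MSM → S_FAM := by
  intro hTUP hMSM A E P hP ε hε
  obtain ⟨c₁, hc₁, hm⟩ := hTUP E P hP (ε / 2) (by positivity)
  have hmpos : 0 < 2 * (1 + 4 * P) := by positivity
  obtain ⟨c, hc⟩ : ∃ c : ℝ, c = c₁ / ((2 * (1 + 4 * P) : ℕ) : ℝ) := ⟨_, rfl⟩
  have hc0 : 0 < c := by rw [hc]; positivity
  obtain ⟨N₁, hN₁⟩ := log_le A hc0
  refine ⟨c, hc0, ?_⟩
  have h2 : 2 * (ε / 2) = ε := by ring
  rw [← h2]
  refine hMSM (ε / 2) N₁ _ _ (by positivity) hm fun N hN hPN x s hs => ?_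
  obtain ⟨y1, L0, yL⟩ := hN₁ N hN
  obtain ⟨y, hy⟩ : ∃ y, y = saving c N := ⟨_, rfl⟩
  rw [← hy] at y1 yL ⊢
  have hyy : saving c₁ N = y ^ (2 * (1 + 4 * P)) := by
    rw [hy, hc, saving_pow N _ hmpos]
  have y0 : 0 < y := by linarith
  obtain ⟨p, hp1, hpP, hen⟩ := hs
  rw [← hy] at hen
  -- the bound for each multiplier
  have key : ∀ j : ℕ, 1 ≤ j → (((Icc 1 x).filter (fun m => 1 ≤ s m ∧ (j : ℤ) * s m ≤ N ∧
      ¬ HLp E N (j * (s m).toNat))).card : ℝ) ≤ x / y ^ 2 := by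
    intro j hj
    obtain ⟨T, hT⟩ : ∃ T, T = (Icc 1 x).filter (fun m => 1 ≤ s m ∧ (j : ℤ) * s m ≤ N) :=
      ⟨_, rfl⟩
    have hTx : T ⊆ Icc 1 x := by rw [hT]; exact filter_subset _ _
    have hTm : ∀ m ∈ T, 1 ≤ s m ∧ (j : ℤ) * s m ≤ N := by
      intro m hm
      rw [hT, mem_filter] at hm
      exact hm.2
    have hj0 : (j : ℤ) ≠ 0 := by omega
    have hj1 : (1 : ℤ) ≤ j := by omega
    have sub1 : (Icc 1 x).filter (fun m => 1 ≤ s m ∧ (j : ℤ) * s m ≤ N ∧
        ¬ HLp E N (j * (s m).toNat)) ⊆ T := by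
      intro m hm
      rw [mem_filter] at hm
      rw [hT, mem_filter]
      exact ⟨hm.1, hm.2.1, hm.2.2.1⟩
    by_cases hc : (T.card : ℝ) ≤ x / y ^ 2
    · exact le_trans (by exact_mod_cast card_le_card sub1) hc
    · push Not at hc
      obtain ⟨f, f1, f2, f3⟩ := sub p x s T hTx
      have f4 := f3 j hj0
      have hx : (x : ℝ) ≤ y ^ 2 * T.card := by
        rw [div_lt_iff₀ (by positivity)] at hc
        linarith
      have hT' : (T.card : ℝ) ≤ x := by
        have := card_le_card hTx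
        rw [Nat.card_Icc] at this
        have h3 : T.card ≤ x := by omega
        exact_mod_cast h3
      have se : SmallEnergy P c₁ N T.card (fun a => (j : ℤ) * s (f a)) := by
        refine ⟨p, hp1, hpP, ?_⟩
        rw [hyy]
        have g1 : (energy p T.card (fun a => (j : ℤ) * s (f a)) : ℝ) * N ≤
            (energy p x s : ℝ) * N :=
          mul_le_mul_of_nonneg_right (by exact_mod_cast f4) (by positivity)
        refine g1.trans (hen.trans ?_)
        have g2 : (x : ℝ) ^ (2 * p) ≤ (y ^ 2 * T.card) ^ (2 * p) :=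
          pow_le_pow_left₀ (by positivity) hx _
        have g3 : y * (y ^ 2 * (T.card : ℝ)) ^ (2 * p) = y ^ (1 + 4 * p) * (T.card : ℝ) ^ (2 * p) := by
          rw [mul_pow, ← pow_mul, pow_add, pow_one]
          ring
        have g4 : y ^ (1 + 4 * p) ≤ y ^ (2 * (1 + 4 * P)) := pow_le_pow_right₀ y1 (by omega)
        calc y * (x : ℝ) ^ (2 * p) ≤ y * (y ^ 2 * (T.card : ℝ)) ^ (2 * p) :=
              mul_le_mul_of_nonneg_left g2 y0.le
          _ = y ^ (1 + 4 * p) * (T.card : ℝ) ^ (2 * p) := g3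
          _ ≤ _ := mul_le_mul_of_nonneg_right g4 (pow_nonneg (Nat.cast_nonneg _) _)
      have ab : ∀ m ∈ Icc 1 T.card, |(j : ℤ) * s (f m)| ≤ N := by
        intro a ha
        obtain ⟨q1, q2⟩ := hTm _ (f1 a ha)
        rw [abs_of_nonneg (mul_nonneg (by omega) (by omega))]
        exact q2
      have fin := hPN T.card (fun a => (j : ℤ) * s (f a)) ab se
      rw [hyy] at fin
      unfold num at fin
      have sub2 : (Icc 1 x).filter (fun m => 1 ≤ s m ∧ (j : ℤ) * s m ≤ N ∧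
          ¬ HLp E N (j * (s m).toNat)) ⊆ ((Icc 1 T.card).filter (fun a =>
          1 ≤ (j : ℤ) * s (f a) ∧ ¬ HLp E N ((j : ℤ) * s (f a)).toNat)).image f := by
        intro m hm
        have hmT := sub1 hm
        rw [f2, mem_image] at hmT
        obtain ⟨a, ha, rfl⟩ := hmT
        rw [mem_filter] at hm
        obtain ⟨-, q1, q2, q3⟩ := hm
        rw [mem_image]
        refine ⟨a, mem_filter.2 ⟨ha, ?_, ?_⟩, rfl⟩
        · nlinarith
        · have e1 : ((j : ℤ) * s (f a)).toNat = j * (s (f a)).toNat := by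
            obtain ⟨n, hn⟩ := Int.eq_ofNat_of_zero_le (show (0 : ℤ) ≤ s (f a) by linarith)
            rw [hn]
            norm_cast
          rw [e1]
          exact q3
      have c1 := (card_le_card sub2).trans card_image_le
      have c2 : (((Icc 1 x).filter (fun m => 1 ≤ s m ∧ (j : ℤ) * s m ≤ N ∧
          ¬ HLp E N (j * (s m).toNat))).card : ℝ) ≤ T.card / y ^ (2 * (1 + 4 * P)) :=
        le_trans (by exact_mod_cast c1) fin
      refine c2.trans ?_
      have g5 : y ^ 2 ≤ y ^ (2 * (1 + 4 * P)) := pow_le_pow_right₀ y1 (by omega)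
      exact div_le_div₀ (by positivity) hT' (by positivity) g5
  -- the union
  obtain ⟨D, hD⟩ : ∃ D, D = ⌊Real.log N ^ A⌋₊ := ⟨_, rfl⟩
  have hDy : (D : ℝ) ≤ y := by
    rw [hD]
    exact (Nat.floor_le (by positivity)).trans yL
  unfold num
  have sub3 : (Icc 1 x).filter (fun m => 1 ≤ s m ∧ (N : ℝ) ≤ s m * Real.log N ^ A ∧
      ∃ j : ℕ, 1 ≤ j ∧ j * (s m).toNat ≤ N ∧ ¬ HLp E N (j * (s m).toNat)) ⊆
      (Icc 1 D).biUnion (fun j => (Icc 1 x).filter (fun m => 1 ≤ s m ∧ (j : ℤ) * s m ≤ N ∧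
      ¬ HLp E N (j * (s m).toNat))) := by
    intro m hm
    rw [mem_filter] at hm
    obtain ⟨hmx, q1, q2, j, j1, j2, j3⟩ := hm
    rw [mem_biUnion]
    obtain ⟨n, hn⟩ := Int.eq_ofNat_of_zero_le (show (0 : ℤ) ≤ s m by linarith)
    rw [hn] at q1 q2 j2 j3
    simp only [Int.toNat_natCast] at j2 j3
    have n1 : 1 ≤ n := by omega
    refine ⟨j, mem_Icc.2 ⟨j1, ?_⟩, mem_filter.2 ⟨hmx, ?_, ?_, ?_⟩⟩
    · rw [hD]
      refine Nat.le_floor ?_
      have r1 : (j : ℝ) * n ≤ N := by exact_mod_cast j2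
      have r2 : (N : ℝ) ≤ n * Real.log N ^ A := by exact_mod_cast q2
      have r3 : (0 : ℝ) < n := by exact_mod_cast n1
      have r4 : (n : ℝ) * j ≤ n * Real.log N ^ A := by linarith
      exact le_of_mul_le_mul_left r4 r3
    · rw [hn]; omega
    · rw [hn]; exact_mod_cast j2
    · rw [hn]; simpa using j3
  have c3 : (((Icc 1 x).filter (fun m => 1 ≤ s m ∧ (N : ℝ) ≤ s m * Real.log N ^ A ∧
      ∃ j : ℕ, 1 ≤ j ∧ j * (s m).toNat ≤ N ∧ ¬ HLp E N (j * (s m).toNat))).card : ℝ) ≤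
      ∑ j ∈ Icc 1 D, (x : ℝ) / y ^ 2 := by
    refine le_trans (by exact_mod_cast (card_le_card sub3).trans card_biUnion_le :
      _ ≤ ((∑ j ∈ Icc 1 D, ((Icc 1 x).filter (fun m => 1 ≤ s m ∧ (j : ℤ) * s m ≤ N ∧
      ¬ HLp E N (j * (s m).toNat))).card : ℕ) : ℝ)) ?_
    push_cast
    exact sum_le_sum fun j hj => key j (mem_Icc.1 hj).1
  have g6 : (D : ℝ) * (x / y ^ 2) ≤ y * (x / y ^ 2) :=
    mul_le_mul_of_nonneg_right hDy (by positivity)
  have g7 : y * (x / y ^ 2) = x / y := by field_simp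
  rw [sum_const, Nat.card_Icc, Nat.add_sub_cancel, nsmul_eq_mul] at c3
  have c4 := c3.trans (g6.trans g7.le)
  refine le_trans (le_of_eq ?_) c4
  rw [Nat.cast_inj]
  congr 1
  ext m
  simp only [mem_filter]

end Pool.Agent.P8H86.FG

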