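import Pool.Agent.P8H15.FG.Stm
import Pool.Agent.Erdos456.Mertens

/-!
Project FG (helper15), packages HSU and TOT, by helper86.
-/

set_option autoImplicit false

namespace Pool.Agent.P8H86.FG

open Finset
open Pool.Agent.P8H15.FG

/-- the sum of the inverse squares of a finite set -/
lemma inv_sq_le : ∃ C : ℝ, 0 ≤ C ∧ ∀ S : Finset ℕ, ∑ p ∈ S, 1 / (p : ℝ) ^ 2 ≤ C := by
  have hs : Summable (fun n : ℕ => 1 / (n : ℝ) ^ 2) := Real.summable_one_div_nat_pow.2 one_lt_two
  exact ⟨∑' n : ℕ, 1 / (n : ℝ) ^ 2, tsum_nonneg fun n => by positivity, fun S =>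
    hs.sum_le_tsum S fun n _ => by positivity⟩

lemma hh_prod (D : ℕ) : ∑ d ∈ Icc 1 D, hh d ≤
    ∏ p ∈ (Icc 1 D).filter (fun p => p.Prime ∧ 2 < p), (1 + 1 / ((p : ℝ) - 2)) := by
  classical
  rw [Finset.prod_one_add]
  obtain ⟨Q, hQ⟩ : ∃ Q, Q = (Icc 1 D).filter (fun p => p.Prime ∧ 2 < p) := ⟨_, rfl⟩
  rw [← hQ]
  have e1 : ∑ d ∈ Icc 1 D, hh d = ∑ d ∈ (Icc 1 D).filter (fun d => Squarefree d ∧ Odd d),
      ∏ p ∈ d.primeFactors, 1 / ((p : ℝ) - 2) := by
    rw [sum_filter]
    rfl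
  have e2 : ∑ S ∈ ((Icc 1 D).filter (fun d => Squarefree d ∧ Odd d)).image Nat.primeFactors,
      ∏ p ∈ S, 1 / ((p : ℝ) - 2) = ∑ d ∈ (Icc 1 D).filter (fun d => Squarefree d ∧ Odd d),
      ∏ p ∈ d.primeFactors, 1 / ((p : ℝ) - 2) := by
    refine sum_image fun a ha b hb hab => ?_
    have h1 := (mem_filter.1 (mem_coe.1 ha)).2.1
    have h2 := (mem_filter.1 (mem_coe.1 hb)).2.1
    have h3 := Nat.prod_primeFactors_of_squarefree h1
    have h4 := Nat.prod_primeFactors_of_squarefree h2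
    rw [← h3, ← h4, hab]
  rw [e1, ← e2]
  refine sum_le_sum_of_subset_of_nonneg ?_ ?_
  · intro S hS
    obtain ⟨d, hd, rfl⟩ := mem_image.1 hS
    rw [mem_filter, mem_Icc] at hd
    rw [mem_powerset]
    intro p hp
    have h1 := Nat.prime_of_mem_primeFactors hp
    have h2 := Nat.dvd_of_mem_primeFactors hp
    have h3 := Nat.le_of_dvd (by omega) h2
    rw [hQ, mem_filter, mem_Icc]
    refine ⟨⟨h1.one_lt.le, by omega⟩, h1, ?_⟩
    rcases Nat.lt_or_ge 2 p with h | h
    · exact h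
    · exfalso
      have h4 : p = 2 := le_antisymm h h1.two_le
      rw [h4] at h2
      exact (Nat.not_even_iff_odd.2 hd.2.2) (even_iff_two_dvd.2 h2)
  · intro S hS _
    refine prod_nonneg fun p hp => ?_
    have h1 := mem_powerset.1 hS hp
    rw [hQ, mem_filter] at h1
    have h2 : (2 : ℝ) < p := by exact_mod_cast h1.2.2
    have : 0 < (p : ℝ) - 2 := by linarith
    positivity

theorem hsu : S_HSU := by
  obtain ⟨C, hC⟩ := Pool.Agent.Erdos456.Mert.mertens_inv
  obtain ⟨C0, hC0, hS⟩ := inv_sq_le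
  refine ⟨Real.exp (C + 6 * C0) + 1, by positivity, fun D hD => ?_⟩
  have hD1 : (1 : ℝ) ≤ D := by exact_mod_cast hD
  have hlog : 0 ≤ Real.log D := Real.log_nonneg hD1
  refine (hh_prod D).trans ?_
  rcases Nat.lt_or_ge D 3 with h | h
  · have e1 : (Icc 1 D).filter (fun p => p.Prime ∧ 2 < p) = ∅ := by
      rw [filter_eq_empty_iff]
      intro p hp hq
      rw [mem_Icc] at hp
      omega
    rw [e1, prod_empty]
    have : 0 < Real.exp (C + 6 * C0) := Real.exp_pos _
    nlinarith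
  · have h1 := hC D h
    have h2 : ∏ p ∈ (Icc 1 D).filter (fun p => p.Prime ∧ 2 < p), (1 + 1 / ((p : ℝ) - 2)) ≤
        Real.exp (∑ p ∈ (Icc 1 D).filter (fun p => p.Prime ∧ 2 < p),
          (1 / (p : ℝ) + 6 * (1 / (p : ℝ) ^ 2))) := by
      rw [Real.exp_sum]
      refine prod_le_prod (fun p hp => ?_) fun p hp => ?_
      · rw [mem_filter] at hp
        have h2 : (2 : ℝ) < p := by exact_mod_cast hp.2.2
        have : 0 < (p : ℝ) - 2 := by linarith
        positivity
      · rw [mem_filter] at hp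
        have h3 : (3 : ℝ) ≤ p := by exact_mod_cast hp.2.2
        have h4 : 0 < (p : ℝ) - 2 := by linarith
        have h5 : 0 < (p : ℝ) := by linarith
        have h6 : 1 / ((p : ℝ) - 2) ≤ 1 / (p : ℝ) + 6 * (1 / (p : ℝ) ^ 2) := by
          have : 1 / (p : ℝ) + 6 * (1 / (p : ℝ) ^ 2) = ((p : ℝ) + 6) / p ^ 2 := by
            field_simp
          rw [this, div_le_div_iff₀ h4 (by positivity)]
          nlinarith
        have h7 := Real.add_one_le_exp (1 / (p : ℝ) + 6 * (1 / (p : ℝ) ^ 2))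
        linarith
    refine h2.trans ?_
    have h3 : ∑ p ∈ (Icc 1 D).filter (fun p => p.Prime ∧ 2 < p),
        (1 / (p : ℝ) + 6 * (1 / (p : ℝ) ^ 2)) ≤ (Real.log (Real.log D) + C) + 6 * C0 := by
      rw [sum_add_distrib, ← mul_sum]
      refine add_le_add ?_ (mul_le_mul_of_nonneg_left (hS _) (by norm_num))
      have h4 : ∑ p ∈ (Icc 1 D).filter (fun p => p.Prime ∧ 2 < p), 1 / (p : ℝ) ≤
          ∑ p ∈ (Icc 1 D).filter Nat.Prime, (1 : ℝ) / p := by
        refine sum_le_sum_of_subset_of_nonneg ?_ fun _ _ _ => by positivity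
        intro p hp
        rw [mem_filter] at hp ⊢
        exact ⟨hp.1, hp.2.1⟩
      have h5 := (abs_le.1 h1).2
      linarith
    have hlog1 : 0 < Real.log D := Real.log_pos (by
      have : (3 : ℝ) ≤ D := by exact_mod_cast h
      linarith)
    have h4 := Real.exp_le_exp.2 h3
    have h5 : Real.exp (Real.log (Real.log D) + C + 6 * C0) =
        Real.log D * Real.exp (C + 6 * C0) := by
      rw [add_assoc, Real.exp_add, Real.exp_log hlog1]
    rw [h5] at h4
    refine h4.trans ?_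
    have : 0 < Real.exp (C + 6 * C0) := Real.exp_pos _
    nlinarith

/-- the number of prime factors -/
lemma card_pf {k N : ℕ} (hk : 1 ≤ k) (hkN : k ≤ N) :
    (k.primeFactors.card : ℝ) * Real.log 2 ≤ Real.log N := by
  have h1 : 2 ^ k.primeFactors.card ≤ k := by
    calc 2 ^ k.primeFactors.card ≤ ∏ p ∈ k.primeFactors, p :=
          Finset.pow_card_le_prod _ _ _ fun p hp => (Nat.prime_of_mem_primeFactors hp).two_le
      _ ≤ k := Nat.le_of_dvd hk (Nat.prod_primeFactors_dvd k)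
  have h2 : ((2 : ℝ)) ^ k.primeFactors.card ≤ N := by exact_mod_cast h1.trans hkN
  have h3 := Real.log_le_log (by positivity) h2
  rwa [Real.log_pow] at h3

theorem tot : S_TOT := by
  obtain ⟨C, hC⟩ := Pool.Agent.Erdos456.Mert.mertens_inv
  obtain ⟨C0, hC0, hS⟩ := inv_sq_le
  refine ⟨4 * Real.exp (C + 2 + 2 * C0), by positivity, fun k N hN hk hkN => ?_⟩
  have l2 := Real.log_two_gt_d9
  have hN16 : (16 : ℝ) ≤ N := by exact_mod_cast hN
  have hL : Real.exp 1 ≤ Real.log N := by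
    have h1 : Real.log 16 ≤ Real.log N := Real.log_le_log (by norm_num) hN16
    have h2 : Real.log 16 = 4 * Real.log 2 := by
      rw [show (16 : ℝ) = 2 ^ 4 by norm_num, Real.log_pow]
      norm_num
    have h3 := Real.exp_one_lt_d9
    linarith
  have hL0 : 0 < Real.log N := (Real.exp_pos 1).trans_le hL
  have hLL : 1 ≤ Real.log (Real.log N) := by
    have := Real.log_le_log (Real.exp_pos 1) hL
    rwa [Real.log_exp] at this
  obtain ⟨L, hLd⟩ : ∃ L, L = Real.log N := ⟨_, rfl⟩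
  rw [← hLd] at hL hL0 hLL ⊢
  -- the cut
  obtain ⟨M, hM⟩ : ∃ M : ℕ, M = ⌈L⌉₊ + 3 := ⟨_, rfl⟩
  have hM3 : 3 ≤ M := by omega
  have hM1 : L ≤ M := by
    rw [hM]; push_cast
    have := Nat.le_ceil L
    linarith
  have hM2 : (M : ℝ) ≤ L + 4 := by
    rw [hM]; push_cast
    have := Nat.ceil_lt_add_one hL0.le
    linarith
  -- the ratio
  have hphi : (k : ℝ) / Nat.totient k ≤ Real.exp (∑ p ∈ k.primeFactors,
      (1 / (p : ℝ) + 2 * (1 / (p : ℝ) ^ 2))) := by
    have h1 : ((Nat.totient k : ℕ) : ℝ) = k * ∏ p ∈ k.primeFactors, (1 - (p : ℝ)⁻¹) := by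
      have := Nat.totient_eq_mul_prod_factors k
      have h2 := congrArg (fun q : ℚ => (q : ℝ)) this
      push_cast at h2
      exact h2
    have hk0 : (0 : ℝ) < k := by exact_mod_cast hk
    have hpos : ∀ p ∈ k.primeFactors, 0 < 1 - (p : ℝ)⁻¹ := by
      intro p hp
      have h3 : (1 : ℝ) < p := by exact_mod_cast (Nat.prime_of_mem_primeFactors hp).one_lt
      have := inv_lt_one_of_one_lt₀ h3
      linarith
    rw [h1, div_mul_eq_div_div, div_self hk0.ne', one_div, ← prod_inv_distrib, Real.exp_sum]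
    refine prod_le_prod (fun p hp => (inv_pos.2 (hpos p hp)).le) fun p hp => ?_
    have h3 : (2 : ℝ) ≤ p := by exact_mod_cast (Nat.prime_of_mem_primeFactors hp).two_le
    have h4 : (1 - (p : ℝ)⁻¹)⁻¹ ≤ 1 + (1 / (p : ℝ) + 2 * (1 / (p : ℝ) ^ 2)) := by
      have h5 : (1 - (p : ℝ)⁻¹)⁻¹ = p / (p - 1) := by
        have : (p : ℝ) - 1 ≠ 0 := by linarith
        field_simp
      have h6 : 1 + (1 / (p : ℝ) + 2 * (1 / (p : ℝ) ^ 2)) = ((p : ℝ) ^ 2 + p + 2) / p ^ 2 := by
        field_simp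
        ring
      rw [h5, h6, div_le_div_iff₀ (by linarith) (by positivity)]
      nlinarith
    have h7 := Real.add_one_le_exp (1 / (p : ℝ) + 2 * (1 / (p : ℝ) ^ 2))
    linarith
  refine hphi.trans ?_
  have hsum : ∑ p ∈ k.primeFactors, (1 / (p : ℝ) + 2 * (1 / (p : ℝ) ^ 2)) ≤
      (Real.log (Real.log M) + C + 2) + 2 * C0 := by
    rw [sum_add_distrib, ← mul_sum]
    refine add_le_add ?_ (mul_le_mul_of_nonneg_left (hS _) (by norm_num))
    rw [← Finset.sum_filter_add_sum_filter_not k.primeFactors (fun p => p ≤ M)]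
    refine add_le_add ?_ ?_
    · have h4 : ∑ p ∈ k.primeFactors.filter (fun p => p ≤ M), 1 / (p : ℝ) ≤
          ∑ p ∈ (Icc 1 M).filter Nat.Prime, (1 : ℝ) / p := by
        refine sum_le_sum_of_subset_of_nonneg ?_ fun _ _ _ => by positivity
        intro p hp
        rw [mem_filter] at hp
        have h5 := Nat.prime_of_mem_primeFactors hp.1
        rw [mem_filter, mem_Icc]
        exact ⟨⟨h5.one_lt.le, hp.2⟩, h5⟩
      have h5 := (abs_le.1 (hC M hM3)).2
      linarith
    · have h4 : ∑ p ∈ k.primeFactors.filter (fun p => ¬ p ≤ M), 1 / (p : ℝ) ≤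
          ∑ _p ∈ k.primeFactors.filter (fun p => ¬ p ≤ M), 1 / L := by
        refine sum_le_sum fun p hp => ?_
        rw [mem_filter] at hp
        have h5 : (M : ℝ) < p := by exact_mod_cast not_le.1 hp.2
        exact one_div_le_one_div_of_le hL0 (by linarith)
      refine h4.trans ?_
      rw [sum_const, nsmul_eq_mul, mul_one_div, div_le_iff₀ hL0]
      have h5 : ((k.primeFactors.filter (fun p => ¬ p ≤ M)).card : ℝ) ≤ k.primeFactors.card := by
        exact_mod_cast card_filter_le _ _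
      have h6 := card_pf hk hkN
      rw [← hLd] at h6
      nlinarith [Nat.cast_nonneg (α := ℝ) k.primeFactors.card]
  have hlogM : 0 < Real.log M := Real.log_pos (by
    have : (3 : ℝ) ≤ M := by exact_mod_cast hM3
    linarith)
  have h4 := Real.exp_le_exp.2 hsum
  have h5 : Real.exp (Real.log (Real.log M) + C + 2 + 2 * C0) =
      Real.log M * Real.exp (C + 2 + 2 * C0) := by
    rw [show Real.log (Real.log M) + C + 2 + 2 * C0 = Real.log (Real.log M) + (C + 2 + 2 * C0)
      by ring, Real.exp_add, Real.exp_log hlogM]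
  rw [h5] at h4
  refine h4.trans ?_
  have h6 : Real.log M ≤ 4 * Real.log L := by
    have e1 := Real.exp_one_gt_d9
    have h7 : (M : ℝ) ≤ L * L := by nlinarith
    have h8 := Real.log_le_log (by linarith) h7
    rw [Real.log_mul hL0.ne' hL0.ne'] at h8
    linarith
  have h9 : 0 < Real.exp (C + 2 + 2 * C0) := Real.exp_pos _
  nlinarith

end Pool.Agent.P8H86.FG

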